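import Pool.Agent.RST.Final

set_option autoImplicit false
open Classical
open Filter Topology

namespace Pool.Agent.Results.MP_052821_co.NearOptimalDensity

/-- For all `Δ ≥ 2`, `γ > 0`, `δ > 0` and all `p = p(n)` with `p ≥ n ^ (-1 + δ)` for large `n`: with
probability tending to `1` every subgraph `H` of `G(n,p)` with
`deg_H(v) ≥ (1/2 + γ) deg_G(v)` for all `v` contains every tree on `n` vertices with maximum degree
at most `Δ`. -/
theorem result :
    ∀ Δ : ℕ, 2 ≤ Δ → ∀ γ : ℝ, 0 < γ → ∀ δ : ℝ, 0 < δ →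
      ∀ p : ℕ → ℝ, (∀ n : ℕ, 0 ≤ p n ∧ p n ≤ 1) →
        (∀ᶠ n : ℕ in atTop, (n : ℝ) ^ (-1 + δ) ≤ p n) →
        Tendsto (fun n : ℕ =>
          ∑ᶠ G : SimpleGraph (Fin n),
            (if (∀ H : SimpleGraph (Fin n), H ≤ G →
                  (∀ v : Fin n, (1 / 2 + γ) * (((G.neighborSet v).ncard : ℕ) : ℝ)
                      ≤ (((H.neighborSet v).ncard : ℕ) : ℝ)) →
                  ∀ T : SimpleGraph (Fin n), T.IsTree →
                    (∀ v : Fin n, (T.neighborSet v).ncard ≤ Δ) →
                    ∃ f : Fin n → Fin n, Function.Injective f ∧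
                      ∀ u v : Fin n, T.Adj u v → H.Adj (f u) (f v))
             then (p n) ^ (G.edgeSet.ncard) *
                    (1 - p n) ^ (n.choose 2 - G.edgeSet.ncard)
             else (0 : ℝ)))
          atTop (𝓝 (1 : ℝ)) :=
  Pool.Agent.RST.main_theorem

end Pool.Agent.Results.MP_052821_co.NearOptimalDensity
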